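import Mathlib

/-
Random cells without unit distances.
-/

namespace Pool.Agent.MP_66cee2_co.H89U

open MeasureTheory Set Filter Metric Topology ProbabilityTheory
open scoped ENNReal RealInnerProductSpace

abbrev E (d : ℕ) := EuclideanSpace ℝ (Fin d)

/-- the critical radius. -/
noncomputable def r0 : ℝ := 3 * √3 / 4

theorem r0_pos : 0 < r0 := by unfold r0; positivity

theorem r0_sq : r0 ^ 2 = 27 / 16 := by
  unfold r0
  rw [div_pow, mul_pow, Real.sq_sqrt (by norm_num)]
  norm_num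

theorem half {d : ℕ} (a w : E d) (ha : ‖a‖ < 1 / 2) (h : r0 < ‖w - (3 / 2 : ℝ) • a‖) :
    9 / 8 < ‖w‖ ^ 2 - 3 * ⟪w, a⟫ := by
  have h1 : r0 ^ 2 < ‖w - (3 / 2 : ℝ) • a‖ ^ 2 := pow_lt_pow_left₀ h r0_pos.le (by norm_num)
  rw [r0_sq, norm_sub_sq_real, inner_smul_right, norm_smul, mul_pow] at h1
  have h2 : ‖a‖ ^ 2 < (1 / 2) ^ 2 := pow_lt_pow_left₀ ha (norm_nonneg _) (by norm_num)
  have h3 : ‖(3 / 2 : ℝ)‖ = 3 / 2 := by norm_num
  rw [h3] at h1
  nlinarith

theorem piece {d : ℕ} (c c' x y : E d) (hx : ‖x - c‖ < 1 / 2) (hy : ‖y - c'‖ < 1 / 2)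
    (h1 : r0 < ‖c' - c - (3 / 2 : ℝ) • (x - c)‖) (h2 : r0 < ‖c - c' - (3 / 2 : ℝ) • (y - c')‖) :
    1 < ‖x - y‖ := by
  have a1 := half _ _ hx h1
  have a2 := half _ _ hy h2
  set w := c' - c with hw
  have e1 : c - c' = -w := by rw [hw]; abel
  rw [e1, norm_neg, inner_neg_left] at a2
  have e2 : y - x = w + (y - c') - (x - c) := by rw [hw]; abel
  have e3 : ⟪w, y - x⟫ = ‖w‖ ^ 2 + ⟪w, y - c'⟫ - ⟪w, x - c⟫ := by
    rw [e2, inner_sub_right, inner_add_right, real_inner_self_eq_norm_sq]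
  have e4 : ⟪w, y - x⟫ ≤ ‖w‖ * ‖y - x‖ := real_inner_le_norm _ _
  rw [norm_sub_rev]
  by_contra hc
  have e5 : ‖w‖ * ‖y - x‖ ≤ ‖w‖ * 1 := mul_le_mul_of_nonneg_left (not_lt.1 hc) (norm_nonneg _)
  nlinarith [sq_nonneg (‖w‖ - 3 / 2)]

/-- `g` belongs to the cell of the centre `i`. -/
def Good {d m : ℕ} (r ρ : ℝ) (A : Fin m → E d) (g : E d) (i : Fin m) : Prop :=
  ‖g - A i‖ < r ∧ ∀ j, j ≠ i → ρ < ‖A j - A i - (3 / 2 : ℝ) • (g - A i)‖

theorem Good.near {d m : ℕ} {ε : ℝ} {A : Fin m → E d} {g x : E d} {i : Fin m}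
    (h : Good (1 / 2 - ε) (r0 + 3 / 2 * ε) A g i) (hx : ‖x - g‖ ≤ ε) : Good (1 / 2) r0 A x i := by
  constructor
  · have e : x - A i = (x - g) + (g - A i) := by abel
    have := norm_add_le (x - g) (g - A i)
    rw [e]
    linarith [h.1]
  · intro j hj
    have h2 := h.2 j hj
    have e : A j - A i - (3 / 2 : ℝ) • (g - A i) =
        (A j - A i - (3 / 2 : ℝ) • (x - A i)) + (3 / 2 : ℝ) • (x - g) := by module
    have h3 := norm_add_le (A j - A i - (3 / 2 : ℝ) • (x - A i)) ((3 / 2 : ℝ) • (x - g))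
    have h4 : ‖(3 / 2 : ℝ)‖ = 3 / 2 := by norm_num
    rw [← e, norm_smul, h4] at h3
    linarith

theorem Good.far {d m : ℕ} {A : Fin m → E d} {x y : E d} {i j : Fin m}
    (hx : Good (1 / 2) r0 A x i) (hy : Good (1 / 2) r0 A y j) (h : i ≠ j) : 1 < ‖x - y‖ :=
  piece _ _ _ _ hx.1 hy.1 (hx.2 j h.symm) (hy.2 i h)

theorem Good.ne {d m : ℕ} {A : Fin m → E d} {x y : E d} {i j : Fin m}
    (hx : Good (1 / 2) r0 A x i) (hy : Good (1 / 2) r0 A y j) : ‖x - y‖ ≠ 1 := by
  by_cases h : i = j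
  · subst h
    have e : x - y = (x - A i) - (y - A i) := by abel
    have := norm_sub_le (x - A i) (y - A i)
    rw [e]
    linarith [hx.1, hy.1]
  · exact (hx.far hy h).ne'

theorem prob {d m : ℕ} (μ : Measure (E d)) [IsProbabilityMeasure μ] (ε v : ℝ) (hε : 0 ≤ ε)
    (hv : 0 ≤ v) (hμ : ∀ z, μ (closedBall z (r0 + 3 / 2 * ε)) ≤ ENNReal.ofReal v) (g : E d) :
    MeasurableSet {A : Fin m → E d | ∃ i, Good (1 / 2 - ε) (r0 + 3 / 2 * ε) A g i} ∧
    m * (μ.real (ball g (1 / 2 - ε)) * (1 - m * v)) ≤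
      (Measure.pi fun _ : Fin m => μ).real
        {A | ∃ i, Good (1 / 2 - ε) (r0 + 3 / 2 * ε) A g i} := by
  set r := 1 / 2 - ε with hr
  set ρ := r0 + 3 / 2 * ε with hρ
  set P := Measure.pi fun _ : Fin m => μ with hP
  have hG : ∀ i, MeasurableSet {A : Fin m → E d | Good r ρ A g i} := by
    intro i
    have e : {A : Fin m → E d | Good r ρ A g i} = {A | ‖g - A i‖ < r} ∩
        ⋂ j : {j : Fin m // j ≠ i}, {A | ρ < ‖A j - A i - (3 / 2 : ℝ) • (g - A i)‖} := by
      ext A
      simp [Good]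
    rw [e]
    refine (isOpen_lt (by fun_prop) continuous_const).measurableSet.inter
      (MeasurableSet.iInter fun j => (isOpen_lt continuous_const (by fun_prop)).measurableSet)
  have eU : {A : Fin m → E d | ∃ i, Good r ρ A g i} = ⋃ i, {A | Good r ρ A g i} := by
    ext A
    simp
  rw [eU]
  refine ⟨MeasurableSet.iUnion hG, ?_⟩
  have hd : Pairwise (Function.onFun Disjoint fun i => {A : Fin m → E d | Good r ρ A g i}) := by
    intro i j hij
    refine Set.disjoint_left.2 fun A h1 h2 => ?_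
    have z : ‖g - g‖ ≤ ε := by simpa using hε
    have := (Good.near h1 z).far (Good.near h2 z) hij
    norm_num at this
  rw [measureReal_iUnion_fintype hd hG]
  let S : Set (E d × E d) :=
    {z | ‖g - z.1‖ < r} ∩ {z | ‖z.2 - z.1 - (3 / 2 : ℝ) • (g - z.1)‖ ≤ ρ}
  have hS : MeasurableSet S :=
    (isOpen_lt (by fun_prop) continuous_const).measurableSet.inter
      (isClosed_le (by fun_prop) continuous_const).measurableSet
  have hev : ∀ i : Fin m, P.map (fun A => A i) = μ := fun i =>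
    (measurePreserving_eval (fun _ : Fin m => μ) i).map_eq
  have hB : ∀ i : Fin m, P.real ((fun A => A i) ⁻¹' ball g r) = μ.real (ball g r) := by
    intro i
    rw [← hev i, measureReal_def, measureReal_def,
      Measure.map_apply (measurable_pi_apply i) measurableSet_ball]
  have hS2 : (μ.prod μ) S ≤ ENNReal.ofReal v * μ (ball g r) := by
    rw [Measure.prod_apply hS, ← lintegral_indicator_const measurableSet_ball]
    refine lintegral_mono fun x => ?_
    by_cases hx : x ∈ ball g r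
    · rw [indicator_of_mem hx]
      refine le_trans (measure_mono fun y hy => ?_) (hμ (x + (3 / 2 : ℝ) • (g - x)))
      rw [mem_closedBall, dist_eq_norm, ← sub_sub]
      exact hy.2
    · have e : Prod.mk x ⁻¹' S = ∅ := by
        refine eq_empty_of_forall_notMem fun y hy => hx ?_
        rw [mem_ball, dist_comm, dist_eq_norm]
        exact hy.1
      rw [e]
      simp
  have hD : ∀ i j : Fin m, i ≠ j →
      P.real ((fun A => (A i, A j)) ⁻¹' S) ≤ v * μ.real (ball g r) := by
    intro i j hij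
    have hi : IndepFun (fun A : Fin m → E d => A i) (fun A => A j) P :=
      (iIndepFun_pi (X := fun _ => id) (μ := fun _ : Fin m => μ)
        fun _ => aemeasurable_id).indepFun hij
    have h1 := (indepFun_iff_map_prod_eq_prod_map_map (measurable_pi_apply i).aemeasurable
      (measurable_pi_apply j).aemeasurable).1 hi
    rw [hev, hev] at h1
    rw [measureReal_def, ← Measure.map_apply (by fun_prop) hS, h1]
    refine (ENNReal.toReal_mono (by finiteness) hS2).trans ?_
    rw [ENNReal.toReal_mul, ENNReal.toReal_ofReal hv, measureReal_def]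
  have hq : 0 ≤ μ.real (ball g r) := measureReal_nonneg
  have h1 : ∀ i : Fin m, μ.real (ball g r) * (1 - m * v) ≤ P.real {A | Good r ρ A g i} := by
    intro i
    have s1 : (fun A : Fin m → E d => A i) ⁻¹' ball g r ⊆ {A | Good r ρ A g i} ∪
        ⋃ j ∈ Finset.univ.erase i, (fun A => (A i, A j)) ⁻¹' S := by
      intro A hA
      have hA' : ‖g - A i‖ < r := by
        rw [mem_preimage, mem_ball, dist_comm, dist_eq_norm] at hA
        exact hA
      by_cases h : Good r ρ A g i
      · exact Or.inl h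
      · right
        simp only [Good, hA', true_and, not_forall, not_lt] at h
        obtain ⟨j, hj, h⟩ := h
        exact mem_biUnion (by simpa using hj) ⟨hA', h⟩
    have s2 := (measureReal_mono s1 (measure_ne_top P _)).trans (measureReal_union_le _ _)
    have s3 := measureReal_biUnion_finset_le (μ := P) (Finset.univ.erase i)
      fun j => (fun A : Fin m → E d => (A i, A j)) ⁻¹' S
    have s4 : ∑ j ∈ Finset.univ.erase i, P.real ((fun A : Fin m → E d => (A i, A j)) ⁻¹' S) ≤
        ∑ _j ∈ Finset.univ.erase i, v * μ.real (ball g r) :=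
      Finset.sum_le_sum fun j hj => hD i j (Finset.ne_of_mem_erase hj).symm
    have s5 : ∑ _j ∈ Finset.univ.erase i, v * μ.real (ball g r) ≤
        ∑ _j : Fin m, v * μ.real (ball g r) :=
      Finset.sum_le_sum_of_subset_of_nonneg (Finset.subset_univ _) fun _ _ _ => by positivity
    rw [hB] at s2
    simp only [Finset.sum_const, Finset.card_univ, Fintype.card_fin, nsmul_eq_mul] at s4 s5
    nlinarith
  calc m * (μ.real (ball g r) * (1 - m * v)) = ∑ _i : Fin m, μ.real (ball g r) * (1 - m * v) := by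
        simp
    _ ≤ _ := Finset.sum_le_sum fun i _ => h1 i

/-- no unit distance. -/
def Free {d : ℕ} (K : Set (E d)) : Prop := ∀ x ∈ K, ∀ y ∈ K, ‖x - y‖ ≠ 1

open Classical in
theorem avg {d : ℕ} (hd : 1 ≤ d) {α : Type} (pt : α → E d) (T : Finset α) (ε : ℝ) (h0 : 0 ≤ ε)
    (h1 : ε ≤ 1 / 4) : ∃ K : Set (E d), Free K ∧
      ((1 / 2 - ε) / (r0 + 3 / 2 * ε)) ^ d / 8 * T.card ≤
        (T.filter fun a => closedBall (pt a) ε ⊆ K).card := by
  set r := 1 / 2 - ε with hr
  set ρ := r0 + 3 / 2 * ε with hρ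
  have r1 : 0 < r := by linarith
  have ρ1 : 0 < ρ := by linarith [r0_pos]
  set R := ∑ a ∈ T, ‖pt a‖ + r + 4 * ρ with hR
  have hs : 0 ≤ ∑ a ∈ T, ‖pt a‖ := Finset.sum_nonneg fun _ _ => norm_nonneg _
  have R1 : 0 < R := by positivity
  have u0 : volume (ball (0 : E d) 1) ≠ 0 := (measure_ball_pos volume _ one_pos).ne'
  have u1 : volume (ball (0 : E d) 1) ≠ ∞ := measure_ball_lt_top.ne
  let μ : Measure (E d) := cond volume (ball 0 R)
  have : IsProbabilityMeasure μ :=
    cond_isProbabilityMeasure_of_finite (measure_ball_pos volume _ R1).ne' measure_ball_lt_top.ne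
  have key : ∀ t : ℝ, 0 ≤ t → (volume (ball (0 : E d) R))⁻¹ *
      (ENNReal.ofReal (t ^ d) * volume (ball (0 : E d) 1)) = ENNReal.ofReal ((t / R) ^ d) := by
    intro t ht
    have a0 : ENNReal.ofReal (R ^ d) ≠ 0 := by simpa using pow_pos R1 d
    rw [Measure.addHaar_ball_of_pos volume _ R1, finrank_euclideanSpace_fin, div_pow,
      ENNReal.ofReal_div_of_pos (pow_pos R1 d),
      ENNReal.mul_inv (Or.inl a0) (Or.inl ENNReal.ofReal_ne_top), div_eq_mul_inv,
      mul_mul_mul_comm, ENNReal.inv_mul_cancel u0 u1, mul_one, mul_comm]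
  set v := (ρ / R) ^ d with hv
  have v0 : 0 < v := by positivity
  have v1 : v ≤ 1 / 4 := by
    have a1 : ρ / R ≤ 1 / 4 := by rw [div_le_iff₀ R1]; linarith
    calc v ≤ (ρ / R) ^ 1 := pow_le_pow_of_le_one (by positivity) (by linarith) hd
      _ ≤ 1 / 4 := by simpa using a1
  have hμ : ∀ z, μ (closedBall z ρ) ≤ ENNReal.ofReal v := by
    intro z
    rw [cond_apply measurableSet_ball, hv, ← key ρ ρ1.le]
    gcongr
    refine (measure_mono inter_subset_right).trans ?_
    rw [Measure.addHaar_closedBall volume _ ρ1.le, finrank_euclideanSpace_fin]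
  have hq : ∀ a ∈ T, μ.real (ball (pt a) r) = (r / R) ^ d := by
    intro a ha
    have s : ball (pt a) r ⊆ ball 0 R := by
      refine ball_subset_ball' ?_
      have := Finset.single_le_sum (f := fun a => ‖pt a‖) (fun _ _ => norm_nonneg _) ha
      rw [dist_zero_right]
      linarith
    rw [measureReal_def, cond_apply measurableSet_ball, inter_eq_right.2 s,
      Measure.addHaar_ball_of_pos volume _ r1, finrank_euclideanSpace_fin, key r r1.le,
      ENNReal.toReal_ofReal (by positivity)]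
  set m := ⌈1 / (4 * v)⌉₊ with hm
  have m1 : 1 / 4 ≤ m * v := by
    have := Nat.le_ceil (1 / (4 * v))
    rw [div_le_iff₀ (by positivity)] at this
    linarith
  have m2 : m * v ≤ 1 / 2 := by
    have a := (Nat.ceil_lt_add_one (show 0 ≤ 1 / (4 * v) by positivity)).le
    have b : (1 / (4 * v) + 1) * v = 1 / 4 + v := by field_simp
    have := mul_le_mul_of_nonneg_right a v0.le
    linarith
  let P := Measure.pi fun _ : Fin m => μ
  let V : α → Set (Fin m → E d) := fun a => {A | ∃ i, Good r ρ A (pt a) i}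
  have hV : ∀ a, MeasurableSet (V a) := fun a => (prob μ ε v h0 v0.le hμ (pt a)).1
  have hP : ∀ a ∈ T, (r / ρ) ^ d / 8 ≤ P.real (V a) := by
    intro a ha
    refine le_trans ?_ (prob μ ε v h0 v0.le hμ (pt a)).2
    rw [hq a ha]
    have e : (r / R) ^ d = (r / ρ) ^ d * v := by
      rw [hv, ← mul_pow]
      congr 1
      field_simp
    have p0 : 0 ≤ (r / ρ) ^ d := by positivity
    have e2 : 1 / 8 ≤ m * v * (1 - m * v) := by nlinarith
    rw [e]
    nlinarith [mul_le_mul_of_nonneg_left e2 p0]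
  have hI : ∀ a, Integrable ((V a).indicator fun _ => (1 : ℝ)) P := fun a =>
    (integrable_const 1).indicator (hV a)
  obtain ⟨A, hA⟩ := exists_integral_le (μ := P)
    (f := fun A => ∑ a ∈ T, (V a).indicator (fun _ => (1 : ℝ)) A)
    (integrable_finsetSum _ fun a _ => hI a)
  rw [integral_finsetSum _ fun a _ => hI a] at hA
  refine ⟨{x | ∃ i, Good (1 / 2) r0 A x i}, fun x ⟨i, hi⟩ y ⟨j, hj⟩ => hi.ne hj, ?_⟩
  calc (r / ρ) ^ d / 8 * T.card = ∑ _a ∈ T, (r / ρ) ^ d / 8 := by simp [mul_comm]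
    _ ≤ ∑ a ∈ T, ∫ A, (V a).indicator (fun _ => (1 : ℝ)) A ∂P := by
        refine Finset.sum_le_sum fun a ha => ?_
        rw [integral_indicator_const _ (hV a), smul_eq_mul, mul_one]
        exact hP a ha
    _ ≤ _ := hA
    _ ≤ _ := by
        rw [Finset.card_filter]
        push_cast
        refine Finset.sum_le_sum fun a _ => ?_
        by_cases h : A ∈ V a
        · rw [indicator_of_mem h, if_pos]
          obtain ⟨i, hi⟩ := h
          intro x hx
          exact ⟨i, hi.near (by rwa [mem_closedBall, dist_eq_norm] at hx)⟩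
        · rw [indicator_of_notMem h]
          split_ifs <;> norm_num

end Pool.Agent.MP_66cee2_co.H89U
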