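import Pool.Agent.MP_66cee2_co.H89U.A

/-
Covering space by sets without unit distances.
-/

namespace Pool.Agent.MP_66cee2_co.H89U

open Set Filter Metric Topology

open Classical in
theorem greedy {α Ω : Type} [Nonempty Ω] (good : Ω → α → Prop) (S : Finset α) (p : ℝ)
    (hp : p ≤ 1) (h : ∀ T : Finset α, ∃ ω, p * T.card ≤ (T.filter (good ω)).card) (k : ℕ) :
    ∃ F : ℕ → Ω, ((S.filter fun a => ∀ t < k, ¬ good (F t) a).card : ℝ) ≤ (1 - p) ^ k * S.card := by
  induction k with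
  | zero => exact ⟨fun _ => Classical.arbitrary Ω, by simp⟩
  | succ k ih =>
    obtain ⟨F, hF⟩ := ih
    obtain ⟨ω, hω⟩ := h (S.filter fun a => ∀ t < k, ¬ good (F t) a)
    refine ⟨fun t => if t = k then ω else F t, ?_⟩
    set T := S.filter fun a => ∀ t < k, ¬ good (F t) a with hT
    have s : (S.filter fun a => ∀ t < k + 1, ¬ good (if t = k then ω else F t) a) ⊆
        T.filter fun a => ¬ good ω a := by
      intro a ha
      simp only [hT, Finset.mem_filter] at ha ⊢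
      refine ⟨⟨ha.1, fun t ht => ?_⟩, ?_⟩
      · have := ha.2 t (by omega)
        rwa [if_neg (by omega)] at this
      · have := ha.2 k (by omega)
        rwa [if_pos rfl] at this
    have c1 : ((S.filter fun a => ∀ t < k + 1, ¬ good (if t = k then ω else F t) a).card : ℝ) ≤
        (T.filter fun a => ¬ good ω a).card := by exact_mod_cast Finset.card_le_card s
    have c2 : ((T.filter (good ω)).card : ℝ) + (T.filter fun a => ¬ good ω a).card = T.card := by
      exact_mod_cast Finset.card_filter_add_card_filter_not (s := T) (good ω)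
    have c3 := mul_le_mul_of_nonneg_left hF (sub_nonneg.2 hp)
    refine c1.trans ?_
    rw [pow_succ]
    nlinarith

theorem shift {d : ℕ} (x : Fin d → ℝ) : ∃ (s : Fin (d + 1)) (k : Fin d → ℤ), ∀ i,
    (s : ℝ) + 1 ≤ x i - (d + 1) * k i ∧ x i - (d + 1) * k i < s + d + 1 := by
  have hD : (0 : ℝ) < d + 1 := by positivity
  have h1 : ∀ i, ∃ (k : ℤ) (b : Fin (d + 1)), (b : ℝ) ≤ x i - (d + 1) * k ∧
      x i - (d + 1) * k < b + 1 := by
    intro i
    have a1 := Int.floor_le (x i / (d + 1))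
    have a2 := Int.lt_floor_add_one (x i / (d + 1))
    rw [le_div_iff₀ hD] at a1
    rw [div_lt_iff₀ hD] at a2
    have y0 : 0 ≤ x i - (d + 1) * ⌊x i / (d + 1)⌋ := by linarith
    refine ⟨⌊x i / (d + 1)⌋, ⟨⌊x i - (d + 1) * ⌊x i / (d + 1)⌋⌋₊, ?_⟩, Nat.floor_le y0,
      Nat.lt_floor_add_one _⟩
    rw [Nat.floor_lt y0]
    push_cast
    linarith
  choose k b hb using h1
  have h2 : ¬ Function.Surjective b := fun h => by
    have := Fintype.card_le_of_surjective b h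
    simp at this
  obtain ⟨s, hs⟩ := not_forall.1 h2
  refine ⟨s, fun i => if s < b i then k i else k i - 1, fun i => ?_⟩
  have b1 : (b i : ℝ) ≤ d := by exact_mod_cast Nat.lt_succ_iff.1 (b i).2
  have s1 : (s : ℝ) ≤ d := by exact_mod_cast Nat.lt_succ_iff.1 s.2
  have s0 : (0 : ℝ) ≤ s := by positivity
  have b0 : (0 : ℝ) ≤ b i := by positivity
  obtain ⟨c1, c2⟩ := hb i
  by_cases h : s < b i
  · have : (s : ℝ) + 1 ≤ b i := by exact_mod_cast h
    simp only [if_pos h]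
    constructor <;> linarith
  · have h' : b i < s := lt_of_le_of_ne (not_lt.1 h) fun e => hs ⟨i, e⟩
    have : (b i : ℝ) + 1 ≤ s := by exact_mod_cast h'
    simp only [if_neg h]
    push_cast
    constructor <;> linarith

theorem cube {d : ℕ} (hd : 1 ≤ d) (L : ℕ) (hL : 4 ≤ L) (k : ℕ)
    (hk : (d : ℝ) * ((2 * d + 1) * L * d) ≤
      ((1 / 2 - 1 / L) / (r0 + 3 / 2 * (1 / L))) ^ d / 8 * k) :
    ∃ F : ℕ → Set (E d), (∀ t, Free (F t)) ∧
      ∀ x : E d, (∀ i, 0 ≤ x i ∧ x i < 2 * d + 1) → ∃ t < k, x ∈ F t := by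
  classical
  have d1 : (1 : ℝ) ≤ d := by exact_mod_cast hd
  have L1 : (4 : ℝ) ≤ L := by exact_mod_cast hL
  have e0 : (0 : ℝ) < 1 / L := by positivity
  have e1 : (1 : ℝ) / L ≤ 1 / 4 := one_div_le_one_div_of_le (by norm_num) L1
  set p := ((1 / 2 - 1 / (L : ℝ)) / (r0 + 3 / 2 * (1 / L))) ^ d / 8 with hp
  have r1 : (1 : ℝ) ≤ r0 := by nlinarith [r0_sq, r0_pos]
  have p1 : p ≤ 1 := by
    have : ((1 / 2 - 1 / (L : ℝ)) / (r0 + 3 / 2 * (1 / L))) ^ d ≤ 1 :=
      pow_le_one₀ (div_nonneg (by linarith) (by linarith))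
        ((div_le_one (by linarith)).2 (by linarith))
    linarith
  set N := (2 * d + 1) * L * d with hN
  have N1 : (N : ℝ) = (2 * d + 1) * L * d := by rw [hN]; push_cast; ring
  let pt : (Fin d → Fin N) → E d := fun u => WithLp.toLp 2 fun i => (u i : ℝ) / (L * d)
  have : Nonempty {K : Set (E d) // Free K} := ⟨⟨∅, fun _ h => h.elim⟩⟩
  obtain ⟨F, hF⟩ := greedy (fun (K : {K : Set (E d) // Free K}) a => closedBall (pt a) (1 / L) ⊆ K.1)
    Finset.univ p p1 (fun T => by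
      obtain ⟨K, h1, h2⟩ := avg hd pt T (1 / L) e0.le e1
      exact ⟨⟨K, h1⟩, h2⟩) k
  have c1 : (1 - p) ^ k * ((Finset.univ : Finset (Fin d → Fin N)).card : ℝ) < 1 := by
    have a1 : (1 - p) ^ k ≤ Real.exp (-p) ^ k :=
      pow_le_pow_left₀ (by linarith) (by linarith [Real.add_one_le_exp (-p)]) k
    have a2 : (N : ℝ) ^ d < Real.exp N ^ d :=
      pow_lt_pow_left₀ (by linarith [Real.add_one_le_exp (N : ℝ)]) (by positivity) (by omega)
    have a3 : Real.exp (-p) ^ k * Real.exp N ^ d ≤ 1 := by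
      rw [← Real.exp_nat_mul, ← Real.exp_nat_mul, ← Real.exp_add, Real.exp_le_one_iff, N1]
      linarith
    simp only [Finset.card_univ, Fintype.card_pi, Fintype.card_fin, Finset.prod_const]
    push_cast
    calc (1 - p) ^ k * (N : ℝ) ^ d ≤ Real.exp (-p) ^ k * (N : ℝ) ^ d := by gcongr
      _ < Real.exp (-p) ^ k * Real.exp N ^ d := by gcongr
      _ ≤ 1 := a3
  have c2 := hF.trans_lt c1
  rw [Nat.cast_lt_one, Finset.card_eq_zero, Finset.filter_eq_empty_iff] at c2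
  refine ⟨fun t => (F t).1, fun t => (F t).2, fun x hx => ?_⟩
  have q0 : (0 : ℝ) < L * d := by positivity
  have hu : ∀ i, ⌊x i * (L * d)⌋₊ < N := by
    intro i
    rw [Nat.floor_lt (mul_nonneg (hx i).1 q0.le), N1, mul_assoc]
    exact mul_lt_mul_of_pos_right (hx i).2 q0
  have c3 := c2 (Finset.mem_univ fun i => (⟨_, hu i⟩ : Fin N))
  simp only [not_forall, not_not] at c3
  obtain ⟨t, ht, h⟩ := c3
  refine ⟨t, ht, h ?_⟩
  rw [mem_closedBall, dist_eq_norm]
  refine (abs_le_of_sq_le_sq' ?_ e0.le).2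
  rw [EuclideanSpace.norm_sq_eq]
  have c4 : ∀ i, ‖(x - pt fun i => (⟨_, hu i⟩ : Fin N)) i‖ ^ 2 ≤ (1 / (L * d) : ℝ) ^ 2 := by
    intro i
    have a1 := Nat.floor_le (mul_nonneg (hx i).1 q0.le)
    have a2 := Nat.lt_floor_add_one (x i * (L * d))
    have e : (x - pt fun i => (⟨_, hu i⟩ : Fin N)) i =
        (x i * (L * d) - ⌊x i * (L * d)⌋₊) / (L * d) := by
      show x i - (⌊x i * (L * d)⌋₊ : ℝ) / (L * d) = _
      field_simp
    rw [e, Real.norm_eq_abs, abs_of_nonneg (div_nonneg (by linarith) q0.le)]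
    exact pow_le_pow_left₀ (div_nonneg (by linarith) q0.le)
      (div_le_div_of_nonneg_right (by linarith) q0.le) 2
  refine (Finset.sum_le_sum fun i _ => c4 i).trans ?_
  simp only [Finset.sum_const, Finset.card_univ, Fintype.card_fin, nsmul_eq_mul]
  have e : (d : ℝ) * (1 / (L * d)) ^ 2 = (1 / L) ^ 2 / d := by field_simp
  rw [e]
  exact div_le_self (by positivity) d1

theorem colour {d k : ℕ} (F : ℕ → Set (E d)) (hF : ∀ t, Free (F t))
    (h : ∀ x : E d, (∀ i, 0 ≤ x i ∧ x i < 2 * d + 1) → ∃ t < k, x ∈ F t) :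
    ∃ c : E d → Fin (d + 1) × Fin k, ∀ x y, ‖x - y‖ = 1 → c x ≠ c y := by
  have h1 : ∀ x : E d, ∃ (s : Fin (d + 1)) (t : Fin k) (z : Fin d → ℤ),
      (∀ i, (s : ℝ) + 1 ≤ x i - (d + 1) * z i ∧ x i - (d + 1) * z i < s + d + 1) ∧
      x - WithLp.toLp 2 (fun i => ((d : ℝ) + 1) * z i) ∈ F t := by
    intro x
    obtain ⟨s, z, hz⟩ := shift (fun i => x i)
    have s1 : (s : ℝ) ≤ d := by exact_mod_cast Nat.lt_succ_iff.1 s.2
    have s0 : (0 : ℝ) ≤ s := by positivity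
    obtain ⟨t, ht, h2⟩ := h (x - WithLp.toLp 2 (fun i => ((d : ℝ) + 1) * z i)) fun i => by
      obtain ⟨a, b⟩ := hz i
      show 0 ≤ x i - (d + 1) * z i ∧ x i - (d + 1) * z i < 2 * d + 1
      constructor <;> linarith
    exact ⟨s, ⟨t, ht⟩, z, hz, h2⟩
  choose s t z hz hm using h1
  refine ⟨fun x => (s x, t x), fun x y hxy e => ?_⟩
  obtain ⟨e1, e2⟩ := Prod.mk.inj e
  have key : ∀ x y : E d, ‖x - y‖ = 1 → s x = s y → ∀ i, ¬ z x i < z y i := by
    intro x y hxy e1 i hi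
    have a1 : (z x i : ℝ) + 1 ≤ z y i := by exact_mod_cast hi
    have a2 := (hz x i).2
    have a3 := (hz y i).1
    have a4 : ‖(x - y) i‖ ≤ ‖x - y‖ := PiLp.norm_apply_le _ i
    rw [hxy, PiLp.sub_apply, Real.norm_eq_abs, abs_le] at a4
    rw [e1] at a2
    have d0 : (0 : ℝ) ≤ d + 1 := by positivity
    nlinarith [mul_le_mul_of_nonneg_left a1 d0, a4.1]
  have e3 : z x = z y := funext fun i => le_antisymm
    (not_lt.1 (key y x (by rwa [norm_sub_rev]) e1.symm i)) (not_lt.1 (key x y hxy e1 i))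
  have a := hm x
  rw [e2, e3] at a
  refine hF _ _ a _ (hm y) ?_
  rw [sub_sub_sub_cancel_right]
  exact hxy

theorem simplex {d n : ℕ} (hd : 1 ≤ d) (c : E d → Fin n) (hc : ∀ x y, ‖x - y‖ = 1 → c x ≠ c y) :
    ∃ f : E d → E n, (∀ x y, ‖x - y‖ = 1 → ‖f x - f y‖ = 1) ∧
      ¬ ∀ x y, ‖f x - f y‖ = ‖x - y‖ := by
  have h2 : (√(1 / 2) : ℝ) ^ 2 = 1 / 2 := Real.sq_sqrt (by norm_num)
  have h0 : (0 : ℝ) ≤ √(1 / 2) := Real.sqrt_nonneg _
  refine ⟨fun x => EuclideanSpace.single (c x) √(1 / 2), fun x y hxy => ?_, fun h => ?_⟩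
  · have e : ‖(EuclideanSpace.single (c x) √(1 / 2) : E n) -
        EuclideanSpace.single (c y) √(1 / 2)‖ ^ 2 = 1 ^ 2 := by
      rw [norm_sub_sq_real, EuclideanSpace.inner_single_left]
      simp only [PiLp.norm_single, Real.norm_eq_abs, sq_abs, h2]
      rw [PiLp.single_apply, if_neg (hc x y hxy)]
      norm_num
    exact (pow_left_inj₀ (norm_nonneg _) zero_le_one (by norm_num)).1 e
  · have a := h (EuclideanSpace.single ⟨0, hd⟩ 2) 0
    have b := norm_sub_le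
      (EuclideanSpace.single (c (EuclideanSpace.single ⟨0, hd⟩ 2)) √(1 / 2) : E n)
      (EuclideanSpace.single (c 0) √(1 / 2))
    rw [a] at b
    simp only [sub_zero, PiLp.norm_single, Real.norm_eq_abs, abs_of_nonneg h0] at b
    rw [abs_of_pos (by norm_num : (0 : ℝ) < 2)] at b
    nlinarith

theorem main (c : ℝ) (hc : 3 * √3 / 2 < c) : ∃ d₀ : ℕ, ∀ d n : ℕ, d₀ ≤ d → c ^ d ≤ n →
    ∃ f : E d → E n, (∀ x y, ‖x - y‖ = 1 → ‖f x - f y‖ = 1) ∧
      ¬ ∀ x y, ‖f x - f y‖ = ‖x - y‖ := by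
  have r1 : (1 : ℝ) ≤ r0 := by nlinarith [r0_sq, r0_pos]
  have c1 : 0 < c / 2 - r0 := by unfold r0; linarith
  obtain ⟨L, hL⟩ := exists_nat_gt (max 4 ((3 / 2 + c) / (c / 2 - r0)))
  have L1 : (4 : ℝ) ≤ L := (le_max_left _ _).trans hL.le
  have L2 := (le_max_right _ _).trans_lt hL
  rw [div_lt_iff₀ c1] at L2
  have e0 : (0 : ℝ) < 1 / L := by positivity
  have e1 : (1 : ℝ) / L ≤ 1 / 4 := one_div_le_one_div_of_le (by norm_num) L1
  set κ := (r0 + 3 / 2 * (1 / L)) / (1 / 2 - 1 / (L : ℝ)) with hκ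
  have k1 : 1 ≤ κ := (one_le_div (by linarith)).2 (by linarith)
  have c0 : 0 < c := by linarith
  have k2 : κ < c := by
    rw [hκ, div_lt_iff₀ (by linarith)]
    have a : (3 / 2 + c) * (1 / L) < c / 2 - r0 := by
      rw [mul_one_div, div_lt_iff₀ (by linarith)]
      linarith
    linarith
  have ht := tendsto_pow_const_mul_const_pow_of_abs_lt_one 4 (r := κ / c)
    (by rw [abs_of_pos (by positivity)]; exact (div_lt_one c0).2 k2)
  obtain ⟨d₀, h⟩ := eventually_atTop.1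
    ((ht.eventually (gt_mem_nhds (show (0 : ℝ) < 1 / (50 * L) by positivity))).and
      (eventually_ge_atTop 1))
  refine ⟨d₀, fun d n hd hn => ?_⟩
  obtain ⟨h1, h2⟩ := h d hd
  have d1 : (1 : ℝ) ≤ d := by exact_mod_cast h2
  have kp : 1 ≤ κ ^ d := one_le_pow₀ k1
  set k := ⌈8 * κ ^ d * (d * ((2 * d + 1) * L * d))⌉₊ with hk
  have a1 : 8 * κ ^ d * (d * ((2 * d + 1) * L * d)) ≤ k := Nat.le_ceil _
  have a2 : (k : ℝ) < 8 * κ ^ d * (d * ((2 * d + 1) * L * d)) + 1 :=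
    Nat.ceil_lt_add_one (by positivity)
  obtain ⟨F, hF, hcov⟩ := cube h2 L (by exact_mod_cast L1) k (by
    have e : (1 / 2 - 1 / (L : ℝ)) / (r0 + 3 / 2 * (1 / L)) = κ⁻¹ := by rw [hκ, inv_div]
    rw [e, inv_pow]
    calc (d : ℝ) * ((2 * d + 1) * L * d)
        = (κ ^ d)⁻¹ / 8 * (8 * κ ^ d * (d * ((2 * d + 1) * L * d))) := by field_simp
      _ ≤ _ := by gcongr)
  obtain ⟨col, hcol⟩ := colour F hF hcov
  have a3 : ((d : ℝ) + 1) * k ≤ n := by
    rw [div_pow, lt_div_iff₀ (by positivity), mul_div_assoc', div_mul_eq_mul_div,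
      div_lt_one (by positivity)] at h1
    have b1 : (1 : ℝ) ≤ κ ^ d * (d * (d * L * d)) :=
      one_le_mul_of_one_le_of_one_le kp (one_le_mul_of_one_le_of_one_le d1
        (one_le_mul_of_one_le_of_one_le (one_le_mul_of_one_le_of_one_le d1 (by linarith)) d1))
    have b2 : 8 * κ ^ d * (d * ((2 * d + 1) * L * d)) ≤ 8 * κ ^ d * (d * ((3 * d) * L * d)) := by
      gcongr
      linarith
    calc ((d : ℝ) + 1) * k ≤ (2 * d) * (25 * (κ ^ d * (d * (d * L * d)))) := by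
          refine mul_le_mul (by linarith) ?_ (by positivity) (by positivity)
          nlinarith
      _ = (d : ℝ) ^ 4 * κ ^ d * (50 * L) := by ring
      _ ≤ n := h1.le.trans hn
  obtain ⟨e⟩ : Nonempty (Fin (d + 1) × Fin k ↪ Fin n) :=
    Function.Embedding.nonempty_of_card_le (by
      simp only [Fintype.card_prod, Fintype.card_fin]
      exact_mod_cast a3)
  exact simplex h2 (fun x => e (col x)) fun x y hxy h => hcol x y hxy (e.injective h)

end Pool.Agent.MP_66cee2_co.H89U
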